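import Pool.Agent.H95.CG.Defs
import Pool.Agent.H95.MT.Gts
import Pool.Agent.H78.KK.Cha

/-!
ROW Blk (170 lines).  One block.

`dgate_block`: `MonoGate h p q i` for `h` on `Finset (Fin J × X)` gives `DGate` for `x ↦ h i (S₀ ∪ put j x)` (see the definition of `DGate` in Pool/Agent/H95/MT/Gts.lean and `dgate` in
Pool/Agent/H95/MT/Main.lean). A test of `e`: if `e ∈ S₀` the value is `1` for all `x` (certificate `W = ∅`). If `e ∉ S₀`: `e ∈ S₀ ∪ put j x ↔ e.1 = j ∧ e.2 ∈ x`; monotone; `W = {e.2}` if `e.1 = j` and `e.2 ∈ x`,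
otherwise the value is `0` and `W = ∅` (all values are `≥ 0`). Certificates: second alternative to second, third to third, with `F = S₀ ∪ put j y`, `F' = S₀ ∪ put j y'`.

`block`: suppose the conclusion fails: `cnt (fun w => ∃ x ∈ D, ..) ≤ 1/2 * card Ω`. Put all circuits and one OR gate into one circuit `H` with `W * s + 1` gates:
for `k : Fin (W * s + 1)`: if `k.1 < W * s` then `H k = h w i` with `(w, i) = finProdFinEquiv.symm ⟨k.1, _⟩` (so `k.1 = i + s * w`: `finProdFinEquiv_apply_val`), and the last gate is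
`H k x = if ∃ z ∈ D, z.2.2 ≤ h z.1 z.2.1 x then 1 else 0`.
`DGate H p q k` for `k.1 < W * s`: from `hg w i`; a certificate `S : Finset (Fin s)` becomes its image under `j ↦ ⟨(finProdFinEquiv (w, j)).1, _⟩` (card does not increase, `j < i` gives a smaller
index, membership in an image is unpacked with `Finset.mem_image`, and `H` of the image element is `h w j` (`Equiv.symm_apply_apply`)).
The last gate: third alternative (lower certificates, `1 ≤ q`): for `y` with some `z ∈ D`, `z.2.2 ≤ h z.1 z.2.1 y`: `S = {index of (z.1, z.2.1)}`, `H y ≤ H y'` gives `z.2.2 ≤ h .. y'`, value `1`;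
otherwise `S = ∅` and `0 ≤` value.
Then `MT.core hD hq hK H _ (last) 0` : `hpos1`: the last gate is `1 > 0` on every `Y α` by `hpos`; `hneg1`: `0 < H last (N w)` iff the value is `1` iff the event. So `4 ^ L ≤ 2 * (W * s + 1)`, against `hs`.
-/

namespace Pool.Agent.H95.CG

open Finset Classical
open H13 (cnt)
open Pool.Agent.H78.KK (put)
open Pool.Agent.H95.MT (Data DGate)

theorem Blk_mem {X : Type} [Fintype X] [DecidableEq X] {J : ℕ} {S₀ : Finset (Fin J × X)}
    {j : Fin J} {e : Fin J × X} {x : Finset X} :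
    e ∈ S₀ ∪ put j x ↔ e ∈ S₀ ∨ (e.1 = j ∧ e.2 ∈ x) := by
  rw [Finset.mem_union]
  unfold put
  rw [Finset.mem_filter]
  simp only [Finset.mem_univ, true_and]

theorem dgate_block {X : Type} [Fintype X] [DecidableEq X] {J s p q : ℕ}
    (h : Fin s → Finset (Fin J × X) → ℝ) (hg : ∀ i, MonoGate h p q i)
    (S₀ : Finset (Fin J × X)) (j : Fin J) (i : Fin s) :
    DGate (fun i x => h i (S₀ ∪ put j x)) p q i := by
  rcases hg i with ⟨e, he⟩ | h1 | h1
  · left
    by_cases he0 : e ∈ S₀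
    · have hval : ∀ x, h i (S₀ ∪ put j x) = 1 := fun x => (he _).1 (Blk_mem.2 (Or.inl he0))
      refine ⟨fun x y _ => ?_, fun x => ⟨∅, Finset.empty_subset _, by simp, ?_⟩⟩
      · show h i (S₀ ∪ put j x) ≤ h i (S₀ ∪ put j y)
        rw [hval, hval]
      · show h i (S₀ ∪ put j x) ≤ h i (S₀ ∪ put j ∅)
        rw [hval, hval]
    · have hin : ∀ x, (e.1 = j ∧ e.2 ∈ x) → h i (S₀ ∪ put j x) = 1 := fun x hx =>
        (he _).1 (Blk_mem.2 (Or.inr hx))
      have hout : ∀ x, ¬ (e.1 = j ∧ e.2 ∈ x) → h i (S₀ ∪ put j x) = 0 := fun x hx =>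
        (he _).2 (fun h2 => by
          rcases Blk_mem.1 h2 with h3 | h3
          · exact he0 h3
          · exact hx h3)
      have hnn : ∀ x, 0 ≤ h i (S₀ ∪ put j x) := by
        intro x
        by_cases hx : e.1 = j ∧ e.2 ∈ x
        · rw [hin x hx]
          exact zero_le_one
        · rw [hout x hx]
      refine ⟨fun x y hxy => ?_, fun x => ?_⟩
      · show h i (S₀ ∪ put j x) ≤ h i (S₀ ∪ put j y)
        by_cases hx : e.1 = j ∧ e.2 ∈ x
        · rw [hin x hx, hin y ⟨hx.1, hxy hx.2⟩]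
        · rw [hout x hx]
          exact hnn y
      · by_cases hx : e.1 = j ∧ e.2 ∈ x
        · refine ⟨{e.2}, Finset.singleton_subset_iff.2 hx.2, by simp, ?_⟩
          show h i (S₀ ∪ put j x) ≤ h i (S₀ ∪ put j {e.2})
          rw [hin x hx, hin {e.2} ⟨hx.1, Finset.mem_singleton_self _⟩]
        · refine ⟨∅, Finset.empty_subset _, by simp, ?_⟩
          show h i (S₀ ∪ put j x) ≤ h i (S₀ ∪ put j ∅)
          rw [hout x hx]
          exact hnn _
  · right; left
    intro y
    obtain ⟨S, hS, hSi, hv⟩ := h1 (S₀ ∪ put j y)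
    exact ⟨S, hS, hSi, fun y' hy' => hv _ hy'⟩
  · right; right
    intro y
    obtain ⟨S, hS, hSi, hv⟩ := h1 (S₀ ∪ put j y)
    exact ⟨S, hS, hSi, fun y' hy' => hv _ hy'⟩

theorem Blk_lift {X : Type} [Fintype X] [DecidableEq X] {s s' p q : ℕ}
    {H : Fin s' → Finset X → ℝ} {h : Fin s → Finset X → ℝ} (f : Fin s → Fin s')
    (hf : ∀ j x, H (f j) x = h j x) (hlt : ∀ j i, j < i → f j < f i) (i : Fin s)
    (hg : DGate h p q i) : DGate H p q (f i) := by
  rcases hg with hg | hg | hg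
  · left
    simp only [hf]
    exact hg
  · right; left
    intro y
    obtain ⟨S, hS, hSi, hv⟩ := hg y
    refine ⟨S.image f, Finset.card_image_le.trans hS, ?_, ?_⟩
    · intro j hj
      obtain ⟨j', hj', rfl⟩ := Finset.mem_image.1 hj
      exact hlt _ _ (hSi j' hj')
    · intro y' hy'
      rw [hf, hf]
      refine hv y' (fun j hj => ?_)
      have := hy' (f j) (Finset.mem_image_of_mem f hj)
      rwa [hf, hf] at this
  · right; right
    intro y
    obtain ⟨S, hS, hSi, hv⟩ := hg y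
    refine ⟨S.image f, Finset.card_image_le.trans hS, ?_, ?_⟩
    · intro j hj
      obtain ⟨j', hj', rfl⟩ := Finset.mem_image.1 hj
      exact hlt _ _ (hSi j' hj')
    · intro y' hy'
      rw [hf, hf]
      refine hv y' (fun j hj => ?_)
      have := hy' (f j) (Finset.mem_image_of_mem f hj)
      rwa [hf, hf] at this

/-- the index of the gate `j` of the circuit `w` -/
def Blk_idx {W s : ℕ} (w : Fin W) (j : Fin s) : Fin (W * s + 1) :=
  ⟨(finProdFinEquiv (w, j)).1, Nat.lt_succ_of_lt (finProdFinEquiv (w, j)).2⟩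

/-- the combined circuit -/
noncomputable def Blk_H {X : Type} {W s : ℕ} (h : Fin W → Fin s → Finset X → ℝ)
    (D : Finset (Fin W × Fin s × ℝ)) (k : Fin (W * s + 1)) (x : Finset X) : ℝ :=
  if hk : k.1 < W * s then
    h (finProdFinEquiv.symm ⟨k.1, hk⟩).1 (finProdFinEquiv.symm ⟨k.1, hk⟩).2 x
  else if ∃ z ∈ D, z.2.2 ≤ h z.1 z.2.1 x then 1 else 0

theorem Blk_H_idx {X : Type} {W s : ℕ} (h : Fin W → Fin s → Finset X → ℝ)
    (D : Finset (Fin W × Fin s × ℝ)) (w : Fin W) (j : Fin s) (x : Finset X) :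
    Blk_H h D (Blk_idx w j) x = h w j x := by
  unfold Blk_H
  rw [dif_pos (show (Blk_idx w j).1 < W * s from (finProdFinEquiv (w, j)).2)]
  have h1 : (⟨(Blk_idx w j).1, (finProdFinEquiv (w, j)).2⟩ : Fin (W * s)) =
    finProdFinEquiv (w, j) := Fin.ext rfl
  rw [h1, Equiv.symm_apply_apply]

theorem Blk_H_last {X : Type} {W s : ℕ} (h : Fin W → Fin s → Finset X → ℝ)
    (D : Finset (Fin W × Fin s × ℝ)) (x : Finset X) :
    Blk_H h D (Fin.last (W * s)) x = if ∃ z ∈ D, z.2.2 ≤ h z.1 z.2.1 x then 1 else 0 := by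
  unfold Blk_H
  rw [dif_neg (by rw [Fin.val_last]; exact lt_irrefl _)]

theorem Blk_idx_lt {W s : ℕ} (w : Fin W) (j i : Fin s) (hji : j < i) :
    Blk_idx w j < Blk_idx w i := by
  show (finProdFinEquiv (w, j)).1 < (finProdFinEquiv (w, i)).1
  rw [finProdFinEquiv_apply_val, finProdFinEquiv_apply_val]
  have : j.1 < i.1 := hji
  show j.1 + s * w.1 < i.1 + s * w.1
  omega

theorem Blk_gates {X : Type} [Fintype X] [DecidableEq X] {W s p q : ℕ} (hq : 1 ≤ q)
    (h : Fin W → Fin s → Finset X → ℝ) (hg : ∀ w i, DGate (h w) p q i)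
    (D : Finset (Fin W × Fin s × ℝ)) (k : Fin (W * s + 1)) : DGate (Blk_H h D) p q k := by
  by_cases hk : k.1 < W * s
  · obtain ⟨⟨w, i⟩, hwi⟩ := finProdFinEquiv.surjective (⟨k.1, hk⟩ : Fin (W * s))
    have h1 : k = Blk_idx w i := by
      apply Fin.ext
      show k.1 = (finProdFinEquiv (w, i)).1
      rw [hwi]
    rw [h1]
    exact Blk_lift (Blk_idx w) (fun j x => Blk_H_idx h D w j x) (Blk_idx_lt w) i (hg w i)
  · have h1 : k = Fin.last (W * s) := by
      apply Fin.ext
      rw [Fin.val_last]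
      have := k.2
      omega
    rw [h1]
    right; right
    intro y
    by_cases hy : ∃ z ∈ D, z.2.2 ≤ h z.1 z.2.1 y
    · obtain ⟨z, hz, hzy⟩ := hy
      refine ⟨{Blk_idx z.1 z.2.1}, by simpa using hq, ?_, ?_⟩
      · intro j hj
        rw [Finset.mem_singleton.1 hj]
        show (finProdFinEquiv (z.1, z.2.1)).1 < (Fin.last (W * s)).1
        rw [Fin.val_last]
        exact (finProdFinEquiv (z.1, z.2.1)).2
      · intro y' hy'
        have h2 := hy' _ (Finset.mem_singleton_self _)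
        rw [Blk_H_idx, Blk_H_idx] at h2
        rw [Blk_H_last, Blk_H_last, if_pos ⟨z, hz, hzy⟩, if_pos ⟨z, hz, hzy.trans h2⟩]
    · refine ⟨∅, by simp, by simp, ?_⟩
      intro y' _
      rw [Blk_H_last, Blk_H_last, if_neg hy]
      split_ifs
      · exact zero_le_one
      · exact le_rfl

theorem block {X : Type} [Fintype X] [DecidableEq X] {Ω A : Type} [Fintype Ω] [Fintype A]
    {N : Ω → Finset X} {Y : A → Finset X} {L K : ℕ} {R Q δ : ℝ} {p q : ℕ}
    (hD : Data N Y L K (p : ℝ) R Q δ) (hq : 1 ≤ q) (hK : (q + 1) * L ≤ K) {W s : ℕ}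
    (hs : 2 * (W * s + 1) < 4 ^ L) (h : Fin W → Fin s → Finset X → ℝ)
    (hg : ∀ w i, DGate (h w) p q i) (D : Finset (Fin W × Fin s × ℝ))
    (hpos : ∀ α, ∃ z ∈ D, z.2.2 ≤ h z.1 z.2.1 (Y α)) :
    1 / 2 * (Fintype.card Ω : ℝ) < cnt (fun w => ∃ z ∈ D, z.2.2 ≤ h z.1 z.2.1 (N w)) := by
  by_contra hcon
  rw [not_lt] at hcon
  have h1 := Pool.Agent.H95.MT.core hD hq hK (Blk_H h D) (Blk_gates hq h hg D)
    (Fin.last (W * s)) 0 ?_ ?_
  · exact absurd h1 (not_le.2 hs)
  · intro α
    rw [Blk_H_last, if_pos (hpos α)]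
    exact zero_lt_one
  · refine le_trans ?_ hcon
    apply H13.cnt_mono
    intro w hw
    rw [Blk_H_last] at hw
    by_contra hcon2
    rw [if_neg hcon2] at hw
    exact lt_irrefl _ hw


end Pool.Agent.H95.CG
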