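import Pool.Agent.H95.CG.Fix

/-!
ROW Cnt (110 lines).  Few arbitrary gates allow few changes along a chain.

`mono_of_gates`: strong induction on `i` (`induction i using WellFoundedLT.induction`). A test: clear (`e ∈ x → e ∈ y`; values `0`, `1`). Upper certificates: take the certificate `S` of `y`
(`F := y`, `F' := x`): `∀ j ∈ S, h j x ≤ h j y` by induction, so `h i x ≤ h i y`. Lower certificates: take the certificate of `x` (`F := x`, `F' := y`).

`count_changes`: let `h` be given by `fix C` and `T = insert (out, θ) (C.special.biUnion C.reads)`, `T.card ≤ r * t + 1` (`Finset.card_insert_le`, `Finset.card_biUnion_le_card_mul`).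
Claim: if `Changes C out θ (x j) (x (j + 1))` there are `v ∈ C.special.powerset` and `z ∈ T` with `¬ z.2 ≤ h v z.1 (x j)` and `z.2 ≤ h v z.1 (x (j + 1))`.
Proof: take the `v` of `fix` for `G = x j`. If all `z ∈ T` had `z.2 ≤ h v z.1 (x j) ↔ z.2 ≤ h v z.1 (x (j + 1))`, then by the second alternative of `fix` (`G' = x (j + 1)`)
`C.val i (x (j + 1)) = h v i (x (j + 1))` for all `i`, and `h v i (x j) = C.val i (x j)`, so no comparison of `C` in `T` changes, against `Changes`. So some `z ∈ T` changes, and because `h v z.1` is monotone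
(`mono_of_gates`, `hx j`) it changes from false to true.
The map `j ↦ (v, z)` (use `choose`) is injective on the filtered set: for `j < j'` with the same `(v, z)`: `x (j + 1) ⊆ x j'` (`monotone_nat_of_le_succ hx`, `j + 1 ≤ j'`), so `z.2 ≤ h v z.1 (x j')`, contradiction.
Its values are in `C.special.powerset ×ˢ T`, which has at most `2 ^ r * (r * t + 1)` elements (`Finset.card_powerset`, `Nat.pow_le_pow_right`).  Use `Finset.card_le_card_of_injOn`.
-/

namespace Pool.Agent.H95.CG

open Finset Classical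

theorem mono_of_gates {Y : Type} {s p q : ℕ} (h : Fin s → Finset Y → ℝ)
    (hg : ∀ i, MonoGate h p q i) (i : Fin s) (x y : Finset Y) (hxy : x ⊆ y) : h i x ≤ h i y := by
  induction i using WellFoundedLT.induction with
  | ind i ih =>
    rcases hg i with ⟨e, he⟩ | h1 | h1
    · by_cases hx : e ∈ x
      · rw [(he x).1 hx, (he y).1 (hxy hx)]
      · rw [(he x).2 hx]
        by_cases hy : e ∈ y
        · rw [(he y).1 hy]; norm_num
        · rw [(he y).2 hy]
    · obtain ⟨S, -, hlt, hS⟩ := h1 y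
      exact hS x (fun j hj => ih j (hlt j hj))
    · obtain ⟨S, -, hlt, hS⟩ := h1 x
      exact hS y (fun j hj => ih j (hlt j hj))

theorem Cnt_T {Y : Type} {s p q r t : ℕ} (C : Circuit Y s p q) (out : Fin s) (θ : ℝ)
    (hr : C.special.card ≤ r) (ht : ∀ i ∈ C.special, (C.reads i).card ≤ t) :
    (insert (out, θ) (C.special.biUnion C.reads)).card ≤ r * t + 1 := by
  refine (Finset.card_insert_le _ _).trans ?_
  have h1 := Finset.card_biUnion_le_card_mul C.special C.reads t ht
  have h2 := Nat.mul_le_mul_right t hr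
  omega

theorem Cnt_step {Y : Type} {s p q : ℕ} (C : Circuit Y s p q) (out : Fin s) (θ : ℝ)
    (h : Finset (Fin s) → Fin s → Finset Y → ℝ) (hg : ∀ v i, MonoGate (h v) p q i)
    (hf : ∀ G, ∃ v ∈ C.special.powerset, (∀ i, h v i G = C.val i G) ∧
        ∀ G', ((∀ i ∈ C.special, ∀ x ∈ C.reads i, (x.2 ≤ C.val x.1 G ↔ x.2 ≤ C.val x.1 G')) ∨
          (∀ i ∈ C.special, ∀ x ∈ C.reads i, (x.2 ≤ h v x.1 G ↔ x.2 ≤ h v x.1 G'))) →
          ∀ i, C.val i G' = h v i G') (F F' : Finset Y) (hF : F ⊆ F') (hc : Changes C out θ F F') :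
    ∃ v ∈ C.special.powerset, ∃ z ∈ insert (out, θ) (C.special.biUnion C.reads),
      ¬ z.2 ≤ h v z.1 F ∧ z.2 ≤ h v z.1 F' := by
  obtain ⟨v, hv, hval, hG⟩ := hf F
  refine ⟨v, hv, ?_⟩
  by_contra hno
  have hiff : ∀ z ∈ insert (out, θ) (C.special.biUnion C.reads), (z.2 ≤ h v z.1 F ↔ z.2 ≤ h v z.1 F') := by
    intro z hz
    constructor
    · intro h1
      exact h1.trans (mono_of_gates (h v) (hg v) z.1 F F' hF)
    · intro h1
      by_contra h2
      exact hno ⟨z, hz, h2, h1⟩
  have hmem : ∀ i ∈ C.special, ∀ z ∈ C.reads i, z ∈ insert (out, θ) (C.special.biUnion C.reads) :=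
    fun i hi z hz => Finset.mem_insert_of_mem (Finset.mem_biUnion.2 ⟨i, hi, hz⟩)
  have hval' := hG F' (Or.inr (fun i hi z hz => hiff z (hmem i hi z hz)))
  rcases hc with hc | ⟨i, hi, z, hz, hc⟩
  · apply hc
    rw [← hval out, hval' out]
    exact hiff (out, θ) (Finset.mem_insert_self _ _)
  · apply hc
    rw [← hval z.1, hval' z.1]
    exact hiff z (hmem i hi z hz)

theorem count_changes {Y : Type} [Fintype Y] {s p q r t : ℕ} (C : Circuit Y s p q) (out : Fin s)
    (θ : ℝ) (hr : C.special.card ≤ r) (ht : ∀ i ∈ C.special, (C.reads i).card ≤ t)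
    (x : ℕ → Finset Y) (hx : ∀ j, x j ⊆ x (j + 1)) (n : ℕ) :
    ((Finset.range n).filter fun j => Changes C out θ (x j) (x (j + 1))).card ≤
      (r * t + 1) * 2 ^ r := by
  obtain ⟨h, hg, hf⟩ := fix C
  set T : Finset (Fin s × ℝ) := insert (out, θ) (C.special.biUnion C.reads) with hT
  have hmono : Monotone x := monotone_nat_of_le_succ hx
  have hex : ∀ j, ∃ v : Finset (Fin s), ∃ z : Fin s × ℝ, Changes C out θ (x j) (x (j + 1)) →
      (v ∈ C.special.powerset ∧ z ∈ T ∧ ¬ z.2 ≤ h v z.1 (x j) ∧ z.2 ≤ h v z.1 (x (j + 1))) := by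
    intro j
    by_cases hc : Changes C out θ (x j) (x (j + 1))
    · obtain ⟨v, hv, z, hz, h1, h2⟩ := Cnt_step C out θ h hg hf (x j) (x (j + 1)) (hx j) hc
      exact ⟨v, z, fun _ => ⟨hv, hz, h1, h2⟩⟩
    · exact ⟨∅, (out, θ), fun h' => absurd h' hc⟩
  choose v z hvz using hex
  have hcard : ((Finset.range n).filter fun j => Changes C out θ (x j) (x (j + 1))).card ≤
      (C.special.powerset ×ˢ T).card := by
    apply Finset.card_le_card_of_injOn (fun j => (v j, z j))
    · intro j hj
      have h1 := hvz j (Finset.mem_filter.1 (Finset.mem_coe.1 hj)).2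
      exact Finset.mem_coe.2 (Finset.mem_product.2 ⟨h1.1, h1.2.1⟩)
    · have key : ∀ j j', Changes C out θ (x j) (x (j + 1)) → Changes C out θ (x j') (x (j' + 1)) →
          v j = v j' → z j = z j' → ¬ j < j' := by
        intro j j' hj hj' e1 e2 hlt
        have h1 := (hvz j hj).2.2.2
        have h2 := (hvz j' hj').2.2.1
        rw [e1, e2] at h1
        exact h2 (h1.trans (mono_of_gates (h (v j')) (hg (v j')) (z j').1 _ _ (hmono hlt)))
      intro j hj j' hj' e
      have hj1 := (Finset.mem_filter.1 (Finset.mem_coe.1 hj)).2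
      have hj2 := (Finset.mem_filter.1 (Finset.mem_coe.1 hj')).2
      have e' := Prod.mk.inj e
      have a1 := key j j' hj1 hj2 e'.1 e'.2
      have a2 := key j' j hj2 hj1 e'.1.symm e'.2.symm
      omega
  refine hcard.trans ?_
  rw [Finset.card_product, Finset.card_powerset, mul_comm]
  exact Nat.mul_le_mul (Cnt_T C out θ hr ht) (Nat.pow_le_pow_right (by norm_num) hr)

end Pool.Agent.H95.CG
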