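import Pool.Agent.H95.CG.Blk
import Pool.Agent.H95.CG.Cnt

/-!
ROW Chn (170 lines).  Along a random chain many steps change a comparison.  (Uses `fix`, `mono_of_gates`, `dgate_block`, `block`; all imported, some still with sorry.)

For `ω : Fin J → Ω` let `z j = pre N ω j` (noise in the blocks below `j`, Pool/Agent/H78/KK/Cha.lean). Let `Chg ω j` be `∃ w, Changes (C w) (out w) (θ w) (pre N ω j) (pre N ω (j + 1))`.

`step` (one block): for `j : Fin J` and `S₀` with `¬ f S₀`: `1/2 * card Ω < cnt (fun y => ∃ w, Changes (C w) (out w) (θ w) S₀ (S₀ ∪ put j (N y)))`.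
Proof. For each `w` let `h w`, `v w` come from `fix (C w)` at `G = S₀` (so `h w (v w) i S₀ = (C w).val i S₀`). Let `T w = insert (out w, θ w) ((C w).special.biUnion (C w).reads)` and
`D` = the set of all `(w, x.1, x.2)`, `x ∈ T w`, with `¬ x.2 ≤ h w (v w) x.1 S₀`. Apply `block` to `fun w i x => h w (v w) i (S₀ ∪ put j x)` (`dgate_block`).
`hpos`: let `α` be given, `G' = S₀ ∪ put j (Y α)`. Suppose no `z ∈ D` has `z.2.2 ≤ h .. G'`. Then for all `w` and `x ∈ T w`: `x.2 ≤ h w (v w) x.1 S₀ ↔ x.2 ≤ h w (v w) x.1 G'`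
(`→` by `mono_of_gates`, `←` because otherwise `(w, x.1, x.2) ∈ D`). By `fix` (second alternative) `(C w).val i G' = h w (v w) i G'` for all `w, i`, so `θ w ≤ (C w).val (out w) S₀ ↔ θ w ≤ (C w).val (out w) G'`
for all `w`, hence `f S₀ ↔ f G'` by `hf` (the predicates `fun w => ..` are equal: `funext`, `propext`), but `f G'` holds by `hpos` and `¬ f S₀`.
Conclusion of `block`: for more than half of the `y` some `z = (w, i, c) ∈ D` has `c ≤ h w (v w) i (S₀ ∪ put j (N y))`; then `Changes (C w) (out w) (θ w) S₀ (S₀ ∪ put j (N y))`: if not, no comparison of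
`T w` changes in `C w` (unfold `Changes`, push_neg), so by `fix` (first alternative) `(C w).val i G' = h w (v w) i G'` for all `i`, and `c ≤ (C w).val i G' ↔ c ≤ (C w).val i S₀ = h w (v w) i S₀`, contradiction.

`chain_main`: `E := ∑ j : Fin J, cnt (fun ω => Chg ω j) ≥ J / 2 * (number of ω with ¬ f (pre N ω J)) ≥ J / 4 * card (Fin J → Ω)`: for fixed `j`:
`card Ω * cnt (fun ω => Chg ω j) = ∑ ω, cnt (fun y => Chg (update ω j y) j)` (`Cha_cnt_update`), and `pre N (update ω j y) j = pre N ω j` (`Cha_pre_update`),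
`pre N (update ω j y) (j + 1) = pre N ω j ∪ put j (N y)` (`Cha_pre_succ`, `Cha_pre_update`, `Function.update_self`), so each `ω` with `¬ f (pre N ω J)` (then `¬ f (pre N ω j)` by `hmono` and `Cha_pre_mono`)
contributes at least `card Ω / 2` by `step`. (Compare the proof of `Cha_block` there.) Hence some `ω` has at least `J / 4` indices `j : Fin J` with `Chg ω j` (`E = ∑ ω, number of such j` by
`Cha_cnt_eq`, `Finset.sum_comm`; `Finset.exists_le_of_sum_le` or by contradiction). Take `x j = pre N ω j`; the number of `j ∈ range J` is the number of `j : Fin J` (`Fin.sum_univ_eq_sum_range`-type argument,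
or `Finset.card_image` under `Fin.val`; `Fin.card_filter_..`, or show `(univ.filter P').map Fin.valEmbedding = (range J).filter P`).
-/

namespace Pool.Agent.H95.CG

open Finset Classical
open H13 (cnt)
open Pool.Agent.H78.KK (put pre)
open Pool.Agent.H95.MT (Data DGate)

variable {X : Type} [Fintype X] [DecidableEq X] {Ω A : Type} [Fintype Ω] [Fintype A]

theorem Chn_iff {W s : ℕ} {Y : Type} {p q : ℕ} (C : Fin W → Circuit Y s p q) (out : Fin W → Fin s)
    (θ : Fin W → ℝ) (Φ : (Fin W → Prop) → Prop) (f : Finset Y → Prop)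
    (hf : ∀ F, Φ (fun w => θ w ≤ (C w).val (out w) F) ↔ f F) (F F' : Finset Y)
    (h : ∀ w, (θ w ≤ (C w).val (out w) F ↔ θ w ≤ (C w).val (out w) F')) : f F ↔ f F' := by
  rw [← hf F, ← hf F']
  have e : (fun w => θ w ≤ (C w).val (out w) F) = (fun w => θ w ≤ (C w).val (out w) F') :=
    funext fun w => propext (h w)
  rw [e]

theorem step {N : Ω → Finset X} {Y : A → Finset X} {L K : ℕ} {R Q δ : ℝ} {p q : ℕ}
    (hD : Data N Y L K (p : ℝ) R Q δ) (hq : 1 ≤ q) (hK : (q + 1) * L ≤ K) {W s J : ℕ}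
    (hs : 2 * (W * s + 1) < 4 ^ L) (C : Fin W → Circuit (Fin J × X) s p q) (out : Fin W → Fin s)
    (θ : Fin W → ℝ) (Φ : (Fin W → Prop) → Prop) (f : Finset (Fin J × X) → Prop)
    (hf : ∀ F, Φ (fun w => θ w ≤ (C w).val (out w) F) ↔ f F)
    (hpos : ∀ S₀ j α, f (S₀ ∪ put j (Y α))) (j : Fin J) (S₀ : Finset (Fin J × X)) (h0 : ¬ f S₀) :
    1 / 2 * (Fintype.card Ω : ℝ) <
      cnt (fun y => ∃ w, Changes (C w) (out w) (θ w) S₀ (S₀ ∪ put j (N y))) := by
  choose H Hg HG using fun w => fix (C w)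
  choose v hv e1 e2 using fun w => HG w S₀
  obtain ⟨g, hgdef⟩ : ∃ g : Fin W → Fin s → Finset (Fin J × X) → ℝ, g = fun w i F => H w (v w) i F := ⟨_, rfl⟩
  have hgg : ∀ w i, MonoGate (g w) p q i := by
    intro w i
    rw [hgdef]
    exact Hg w (v w) i
  have hg1 : ∀ w i, g w i S₀ = (C w).val i S₀ := by
    intro w i
    rw [hgdef]
    exact e1 w i
  have hg2 : ∀ w G', ((∀ i ∈ (C w).special, ∀ x ∈ (C w).reads i,
      (x.2 ≤ (C w).val x.1 S₀ ↔ x.2 ≤ (C w).val x.1 G')) ∨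
      (∀ i ∈ (C w).special, ∀ x ∈ (C w).reads i, (x.2 ≤ g w x.1 S₀ ↔ x.2 ≤ g w x.1 G'))) →
      ∀ i, (C w).val i G' = g w i G' := by
    intro w G' h
    rw [hgdef] at h ⊢
    exact e2 w G' h
  obtain ⟨T, hT⟩ : ∃ T : Fin W → Finset (Fin s × ℝ),
    T = fun w => insert (out w, θ w) ((C w).special.biUnion (C w).reads) := ⟨_, rfl⟩
  have hT1 : ∀ w, (out w, θ w) ∈ T w := by
    intro w
    rw [hT]
    exact Finset.mem_insert_self _ _
  have hT2 : ∀ w, ∀ i ∈ (C w).special, ∀ x ∈ (C w).reads i, x ∈ T w := by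
    intro w i hi x hx
    rw [hT]
    exact Finset.mem_insert_of_mem (Finset.mem_biUnion.2 ⟨i, hi, hx⟩)
  have hT3 : ∀ w, ∀ x ∈ T w, x = (out w, θ w) ∨ ∃ i ∈ (C w).special, x ∈ (C w).reads i := by
    intro w x hx
    rw [hT] at hx
    rcases Finset.mem_insert.1 hx with h | h
    · exact Or.inl h
    · exact Or.inr (Finset.mem_biUnion.1 h)
  obtain ⟨D, hDdef⟩ : ∃ D : Finset (Fin W × Fin s × ℝ), D = univ.biUnion (fun w =>
    ((T w).filter (fun x => ¬ x.2 ≤ g w x.1 S₀)).image (fun x => (w, x.1, x.2))) := ⟨_, rfl⟩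
  have hDm : ∀ (w : Fin W) (i : Fin s) (c : ℝ), (w, i, c) ∈ D ↔ ((i, c) ∈ T w ∧ ¬ c ≤ g w i S₀) := by
    intro w i c
    rw [hDdef, Finset.mem_biUnion]
    constructor
    · rintro ⟨w', -, h⟩
      rw [Finset.mem_image] at h
      obtain ⟨x, hx, hxe⟩ := h
      rw [Finset.mem_filter] at hx
      have a1 : w' = w := congrArg Prod.fst hxe
      have a2 : x.1 = i := congrArg (fun z => z.2.1) hxe
      have a3 : x.2 = c := congrArg (fun z => z.2.2) hxe
      subst a1
      have a4 : x = (i, c) := Prod.ext a2 a3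
      rw [a4] at hx
      exact hx
    · rintro ⟨h1, h2⟩
      exact ⟨w, Finset.mem_univ _, Finset.mem_image.2 ⟨(i, c), Finset.mem_filter.2 ⟨h1, h2⟩, rfl⟩⟩
  have hposD : ∀ α, ∃ z ∈ D, z.2.2 ≤ (fun w i x => g w i (S₀ ∪ put j x)) z.1 z.2.1 (Y α) := by
    intro α
    by_contra hno
    push Not at hno
    apply h0
    rw [Chn_iff C out θ Φ f hf S₀ (S₀ ∪ put j (Y α))]
    · exact hpos S₀ j α
    · intro w
      have hiff : ∀ x ∈ T w, (x.2 ≤ g w x.1 S₀ ↔ x.2 ≤ g w x.1 (S₀ ∪ put j (Y α))) := by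
        intro x hx
        constructor
        · intro h
          exact h.trans (mono_of_gates (g w) (hgg w) x.1 S₀ _ Finset.subset_union_left)
        · intro h
          by_contra h'
          have h3 := hno (w, x.1, x.2) ((hDm w x.1 x.2).2 ⟨hx, h'⟩)
          exact absurd h (not_le.2 h3)
      have hval := hg2 w (S₀ ∪ put j (Y α)) (Or.inr fun i hi x hx => hiff x (hT2 w i hi x hx))
      rw [← hg1 w (out w), hval (out w)]
      exact hiff (out w, θ w) (hT1 w)
  have hb := block hD hq hK hs (fun w i x => g w i (S₀ ∪ put j x))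
    (fun w i => dgate_block (g w) (hgg w) S₀ j i) D hposD
  refine hb.trans_le (H13.cnt_mono ?_)
  rintro y ⟨⟨w, i, c⟩, hz, hc⟩
  refine ⟨w, ?_⟩
  by_contra hno
  unfold Changes at hno
  push Not at hno
  obtain ⟨hn1, hn2⟩ := hno
  have hval := hg2 w (S₀ ∪ put j (N y)) (Or.inl hn2)
  obtain ⟨hz1, hz2⟩ := (hDm w i c).1 hz
  have hc' : c ≤ g w i (S₀ ∪ put j (N y)) := hc
  rw [← hval i] at hc'
  rw [hg1 w i] at hz2
  rcases hT3 w (i, c) hz1 with h | ⟨i', hi', hx⟩
  · have a1 : i = out w := congrArg Prod.fst h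
    have a2 : c = θ w := congrArg Prod.snd h
    rw [a1, a2] at hc' hz2
    exact hz2 (hn1.2 hc')
  · exact hz2 ((hn2 i' hi' (i, c) hx).2 hc')

theorem chain_main {N : Ω → Finset X} {Y : A → Finset X} {L K : ℕ} {R Q δ : ℝ} {p q : ℕ}
    (hD : Data N Y L K (p : ℝ) R Q δ) (hq : 1 ≤ q) (hK : (q + 1) * L ≤ K) {W s J : ℕ}
    (hs : 2 * (W * s + 1) < 4 ^ L) (C : Fin W → Circuit (Fin J × X) s p q) (out : Fin W → Fin s)
    (θ : Fin W → ℝ) (Φ : (Fin W → Prop) → Prop) (f : Finset (Fin J × X) → Prop)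
    (hf : ∀ F, Φ (fun w => θ w ≤ (C w).val (out w) F) ↔ f F)
    (hmono : ∀ x y, x ⊆ y → f x → f y) (hpos : ∀ S₀ j α, f (S₀ ∪ put j (Y α)))
    (hneg : 1 / 2 * (Fintype.card (Fin J → Ω) : ℝ) ≤
      cnt (fun ω : Fin J → Ω => ¬ f (pre N ω J))) :
    ∃ x : ℕ → Finset (Fin J × X), (∀ j, x j ⊆ x (j + 1)) ∧
      J ≤ 4 * ((Finset.range J).filter fun j =>
        ∃ w, Changes (C w) (out w) (θ w) (x j) (x (j + 1))).card := by
  have hΩ : (0 : ℝ) < Fintype.card Ω := by exact_mod_cast hD.hΩ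
  have : Nonempty Ω := Fintype.card_pos_iff.1 hD.hΩ
  -- one block
  have h1 : ∀ j : Fin J, 1 / 4 * (Fintype.card (Fin J → Ω) : ℝ) ≤
      cnt (fun ω : Fin J → Ω => ∃ w, Changes (C w) (out w) (θ w) (pre N ω j.1) (pre N ω (j.1 + 1))) := by
    intro j
    have h2 := Pool.Agent.H78.KK.Cha_cnt_update (Ω := Ω) j
      (fun ω : Fin J → Ω => ∃ w, Changes (C w) (out w) (θ w) (pre N ω j.1) (pre N ω (j.1 + 1)))
    have h3 : ∀ ω : Fin J → Ω, (if ¬ f (pre N ω J) then (1 : ℝ) else 0) * (1 / 2 * (Fintype.card Ω : ℝ)) ≤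
        cnt (fun y => ∃ w, Changes (C w) (out w) (θ w) (pre N (Function.update ω j y) j.1)
          (pre N (Function.update ω j y) (j.1 + 1))) := by
      intro ω
      have e1 : ∀ y, pre N (Function.update ω j y) (j.1 + 1) = pre N ω j.1 ∪ put j (N y) := by
        intro y
        rw [Pool.Agent.H78.KK.Cha_pre_succ, Pool.Agent.H78.KK.Cha_pre_update, Function.update_self]
      simp only [e1, Pool.Agent.H78.KK.Cha_pre_update]
      by_cases hG : ¬ f (pre N ω J)
      · rw [if_pos hG, one_mul]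
        refine (step hD hq hK hs C out θ Φ f hf hpos j (pre N ω j.1) ?_).le
        intro h
        exact hG (hmono _ _ (Pool.Agent.H78.KK.Cha_pre_mono N ω j.2.le) h)
      · rw [if_neg hG, zero_mul]
        exact H13.cnt_nonneg _
    have h4 := Finset.sum_le_sum fun (ω : Fin J → Ω) (_ : ω ∈ univ) => h3 ω
    rw [← Finset.sum_mul] at h4
    have h5 : ∑ ω : Fin J → Ω, (if ¬ f (pre N ω J) then (1 : ℝ) else 0) =
        cnt (fun ω : Fin J → Ω => ¬ f (pre N ω J)) :=
      (Pool.Agent.H78.KK.Cha_cnt_eq (fun ω : Fin J → Ω => ¬ f (pre N ω J))).symm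
    rw [h5, h2] at h4
    have h6 : 1 / 2 * (Fintype.card (Fin J → Ω) : ℝ) * (1 / 2 * (Fintype.card Ω : ℝ)) ≤
        (Fintype.card Ω : ℝ) * cnt (fun ω : Fin J → Ω =>
          ∃ w, Changes (C w) (out w) (θ w) (pre N ω j.1) (pre N ω (j.1 + 1))) :=
      (mul_le_mul_of_nonneg_right hneg (by positivity)).trans h4
    refine le_of_mul_le_mul_left ?_ hΩ
    calc (Fintype.card Ω : ℝ) * (1 / 4 * (Fintype.card (Fin J → Ω) : ℝ))
        = 1 / 2 * (Fintype.card (Fin J → Ω) : ℝ) * (1 / 2 * (Fintype.card Ω : ℝ)) := by ring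
      _ ≤ _ := h6
  -- some point of the product space has many changes
  have h7 : ∑ _ω : Fin J → Ω, (J : ℝ) ≤ ∑ ω : Fin J → Ω, 4 * (((univ : Finset (Fin J)).filter fun j =>
      ∃ w, Changes (C w) (out w) (θ w) (pre N ω j.1) (pre N ω (j.1 + 1))).card : ℝ) := by
    have h8 := Finset.sum_le_sum fun (j : Fin J) (_ : j ∈ univ) => h1 j
    have h9 : ∑ j : Fin J, cnt (fun ω : Fin J → Ω =>
        ∃ w, Changes (C w) (out w) (θ w) (pre N ω j.1) (pre N ω (j.1 + 1))) =
        ∑ ω : Fin J → Ω, (((univ : Finset (Fin J)).filter fun j =>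
          ∃ w, Changes (C w) (out w) (θ w) (pre N ω j.1) (pre N ω (j.1 + 1))).card : ℝ) := by
      have h10 : ∀ j : Fin J, cnt (fun ω : Fin J → Ω =>
          ∃ w, Changes (C w) (out w) (θ w) (pre N ω j.1) (pre N ω (j.1 + 1))) =
          ∑ ω : Fin J → Ω, if (∃ w, Changes (C w) (out w) (θ w) (pre N ω j.1) (pre N ω (j.1 + 1)))
            then (1 : ℝ) else 0 := fun j => Pool.Agent.H78.KK.Cha_cnt_eq _
      rw [Finset.sum_congr rfl fun j _ => h10 j, Finset.sum_comm]
      refine Finset.sum_congr rfl fun ω _ => ?_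
      rw [← Finset.sum_filter, Finset.sum_const, nsmul_eq_mul, mul_one]
    rw [h9, Finset.sum_const, Finset.card_univ, Fintype.card_fin, nsmul_eq_mul] at h8
    rw [Finset.sum_const, Finset.card_univ, nsmul_eq_mul, ← Finset.mul_sum]
    linarith
  obtain ⟨ω, -, hω⟩ := Finset.exists_le_of_sum_le (Finset.univ_nonempty) h7
  refine ⟨fun j => pre N ω j, fun j => Pool.Agent.H78.KK.Cha_pre_mono N ω (Nat.le_succ j), ?_⟩
  have hω' : J ≤ 4 * ((univ : Finset (Fin J)).filter fun j =>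
      ∃ w, Changes (C w) (out w) (θ w) (pre N ω j.1) (pre N ω (j.1 + 1))).card := by
    exact_mod_cast hω
  refine hω'.trans (Nat.mul_le_mul_left 4 ?_)
  apply Finset.card_le_card_of_injOn (fun j : Fin J => j.1)
  · intro j hj
    have hj' := (Finset.mem_filter.1 (Finset.mem_coe.1 hj)).2
    exact Finset.mem_coe.2 (Finset.mem_filter.2 ⟨Finset.mem_range.2 j.2, hj'⟩)
  · intro a _ b _ hab
    exact Fin.ext hab

end Pool.Agent.H95.CG
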