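import Mathlib

/-!
Circuits whose gates are monotone real valued functions with small certificates, and arbitrary
gates; the function `Curve`.
-/

namespace Pool.Agent.H95.CG

/-- The gate `i` of a family `val` of real valued functions of a finite set is a monotone gate:
* a test of one element: `1` if a fixed element belongs to the set, else `0`; or
* a gate with upper certificates of size at most `p`: for every input `F` there is a set `S` of at
  most `p` earlier gates such that on every input on which no gate of `S` has a larger value than
  on `F`, the gate itself has no larger value than on `F`; or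
* a gate with lower certificates of size at most `q`: the same with smaller in place of larger. -/
def MonoGate {Y : Type} {s : ℕ} (val : Fin s → Finset Y → ℝ) (p q : ℕ) (i : Fin s) : Prop :=
  (∃ e, ∀ F, (e ∈ F → val i F = 1) ∧ (e ∉ F → val i F = 0)) ∨
  (∀ F, ∃ S : Finset (Fin s), S.card ≤ p ∧ (∀ j ∈ S, j < i) ∧
    ∀ F', (∀ j ∈ S, val j F' ≤ val j F) → val i F' ≤ val i F) ∨
  (∀ F, ∃ S : Finset (Fin s), S.card ≤ q ∧ (∀ j ∈ S, j < i) ∧
    ∀ F', (∀ j ∈ S, val j F ≤ val j F') → val i F ≤ val i F')

/-- A circuit with `s` gates in topological order whose input is a finite set of elements of `Y`.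
All gates outside `special` are monotone gates; a gate `i` in `special` has the values `0` and `1`
and is an arbitrary function of the comparisons `reads i` of values of earlier gates with real
numbers (the pair `x` stands for the comparison `x.2 ≤ value of the gate x.1`). -/
structure Circuit (Y : Type) (s p q : ℕ) where
  /-- the value of a gate on an input -/
  val : Fin s → Finset Y → ℝ
  /-- the arbitrary gates -/
  special : Finset (Fin s)
  /-- the comparisons read by an arbitrary gate -/
  reads : Fin s → Finset (Fin s × ℝ)
  mono_gate : ∀ i, i ∉ special → MonoGate val p q i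
  special_val : ∀ i ∈ special, ∀ F, val i F = 0 ∨ val i F = 1
  reads_lt : ∀ i ∈ special, ∀ x ∈ reads i, x.1 < i
  special_gate : ∀ i ∈ special, ∀ F F',
    (∀ x ∈ reads i, (x.2 ≤ val x.1 F ↔ x.2 ≤ val x.1 F')) → val i F = val i F'

/-- Between the inputs `F` and `F'` the comparison `θ ≤ value of out`, or some comparison read by a
special gate, changes. -/
def Changes {Y : Type} {s p q : ℕ} (C : Circuit Y s p q) (out : Fin s) (θ : ℝ)
    (F F' : Finset Y) : Prop :=
  ¬ (θ ≤ C.val out F ↔ θ ≤ C.val out F') ∨
    ∃ i ∈ C.special, ∃ x ∈ C.reads i, ¬ (x.2 ≤ C.val x.1 F ↔ x.2 ≤ C.val x.1 F')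

/-- In some layer `b` the set contains the graph `{(m, P(m)) | m < M}` of a polynomial `P` with
`K` coefficients modulo `d`. -/
def Curve (J M d K : ℕ) (F : Finset (Fin J × Fin M × ZMod d)) : Prop :=
  ∃ (b : Fin J) (a : Fin K → ZMod d),
    ∀ m : Fin M, (b, m, ∑ i, a i * (m.val : ZMod d) ^ (i : ℕ)) ∈ F

end Pool.Agent.H95.CG
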