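import Pool.Agent.H95.CG.Defs
import Pool.Agent.H95.MT.Ext

/-!
The monotone circuits behind a circuit with arbitrary gates (adapted from Pool/Agent/H78/KK/Fam.lean): for every set `v` of special
gates whose value is replaced by `1` (`0` for the others) all gates of `h v` are monotone.
-/

namespace Pool.Agent.H95.CG

open Finset Classical

/-- the test gates -/
def Fix_tst {Y : Type} {s : ℕ} (val : Fin s → Finset Y → ℝ) (i : Fin s) : Prop :=
  ∃ e, ∀ F, (e ∈ F → val i F = 1) ∧ (e ∉ F → val i F = 0)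

/-- certificates of an extended gate function -/
def Fix_cert {s : ℕ} (p q : ℕ) (i : Fin s) (φ : (Fin s → ℝ) → ℝ) : Prop :=
  (∀ u : Fin s → ℝ, ∃ T : Finset (Fin s), T.card ≤ p ∧ (∀ j ∈ T, j < i) ∧
    ∀ v : Fin s → ℝ, (∀ j ∈ T, v j ≤ u j) → φ v ≤ φ u) ∨
  (∀ u : Fin s → ℝ, ∃ T : Finset (Fin s), T.card ≤ q ∧ (∀ j ∈ T, j < i) ∧
    ∀ v : Fin s → ℝ, (∀ j ∈ T, u j ≤ v j) → φ u ≤ φ v)

theorem Fix_phi {Y : Type} [Fintype Y] {s p q : ℕ} (val : Fin s → Finset Y → ℝ) (i : Fin s)
    (hm : MonoGate val p q i) (ht : ¬ Fix_tst val i) :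
    ∃ φ : (Fin s → ℝ) → ℝ, (∀ G, φ (fun j => val j G) = val i G) ∧ Fix_cert p q i φ := by
  rcases hm with h | h | h
  · exact absurd h ht
  · choose S h1 h2 h3 using h
    obtain ⟨φ, e, c⟩ := Pool.Agent.H95.MT.ext_lo (Z := Finset Y) val i S h3
    refine ⟨φ, e, Or.inl ?_⟩
    intro u
    obtain ⟨T, hT, hc⟩ := c u
    refine ⟨T, ?_, ?_, hc⟩
    · rcases hT with hT | ⟨y, hT⟩
      · rw [hT]; simp
      · rw [hT]; exact h1 y
    · rcases hT with hT | ⟨y, hT⟩
      · rw [hT]; intro j hj; simp at hj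
      · rw [hT]; exact h2 y
  · choose S h1 h2 h3 using h
    obtain ⟨φ, e, c⟩ := Pool.Agent.H95.MT.ext_up (Z := Finset Y) val i S h3
    refine ⟨φ, e, Or.inr ?_⟩
    intro u
    obtain ⟨T, hT, hc⟩ := c u
    refine ⟨T, ?_, ?_, hc⟩
    · rcases hT with hT | ⟨y, hT⟩
      · rw [hT]; simp
      · rw [hT]; exact h1 y
    · rcases hT with hT | ⟨y, hT⟩
      · rw [hT]; intro j hj; simp at hj
      · rw [hT]; exact h2 y

theorem Fix_dep {s p q : ℕ} {i : Fin s} {φ : (Fin s → ℝ) → ℝ} (h : Fix_cert p q i φ)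
    {u u' : Fin s → ℝ} (huu : ∀ j, j < i → u j = u' j) : φ u = φ u' := by
  rcases h with h | h
  · refine le_antisymm ?_ ?_
    · obtain ⟨T, -, h2, h3⟩ := h u'
      exact h3 u (fun j hj => le_of_eq (huu j (h2 j hj)))
    · obtain ⟨T, -, h2, h3⟩ := h u
      exact h3 u' (fun j hj => le_of_eq (huu j (h2 j hj)).symm)
  · refine le_antisymm ?_ ?_
    · obtain ⟨T, -, h2, h3⟩ := h u
      exact h3 u' (fun j hj => le_of_eq (huu j (h2 j hj)))
    · obtain ⟨T, -, h2, h3⟩ := h u'
      exact h3 u (fun j hj => le_of_eq (huu j (h2 j hj)).symm)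

theorem Fix_rec {s p q : ℕ} (sp v : Finset (Fin s)) (tst : Fin s → Prop) (w : Fin s → ℝ)
    (φ : Fin s → (Fin s → ℝ) → ℝ) (hφ : ∀ i, i ∉ sp → ¬ tst i → Fix_cert p q i (φ i)) :
    ∃ y : Fin s → ℝ, (∀ i, i ∈ sp → y i = if i ∈ v then 1 else 0) ∧
      (∀ i, i ∉ sp → tst i → y i = w i) ∧ (∀ i, i ∉ sp → ¬ tst i → y i = φ i y) := by
  let F : (i : Fin s) → ((j : Fin s) → j < i → ℝ) → ℝ := fun i prev =>
    if i ∈ sp then (if i ∈ v then 1 else 0) else
      if tst i then w i else φ i (fun j => if hj : j < i then prev j hj else 0)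
  let y : Fin s → ℝ := (wellFounded_lt (α := Fin s)).fix F
  have hy : ∀ i, y i = F i (fun j _ => y j) := fun i =>
    WellFounded.fix_eq (wellFounded_lt (α := Fin s)) F i
  refine ⟨y, ?_, ?_, ?_⟩
  · intro i hi
    rw [hy i]
    simp only [F, if_pos hi]
  · intro i hi ht
    rw [hy i]
    simp only [F, if_neg hi, if_pos ht]
  · intro i hi ht
    have e : y i = φ i (fun j => if hj : j < i then y j else 0) := by
      rw [hy i]
      simp only [F, if_neg hi, if_neg ht]
    rw [e]
    refine Fix_dep (hφ i hi ht) ?_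
    intro j hj
    simp [hj]

theorem fix {Y : Type} [Fintype Y] {s p q : ℕ} (C : Circuit Y s p q) :
    ∃ h : Finset (Fin s) → Fin s → Finset Y → ℝ, (∀ v i, MonoGate (h v) p q i) ∧
      ∀ G, ∃ v ∈ C.special.powerset, (∀ i, h v i G = C.val i G) ∧
        ∀ G', ((∀ i ∈ C.special, ∀ x ∈ C.reads i, (x.2 ≤ C.val x.1 G ↔ x.2 ≤ C.val x.1 G')) ∨
          (∀ i ∈ C.special, ∀ x ∈ C.reads i, (x.2 ≤ h v x.1 G ↔ x.2 ≤ h v x.1 G'))) →
          ∀ i, C.val i G' = h v i G' := by
  have hex : ∀ i, ∃ φ : (Fin s → ℝ) → ℝ, i ∉ C.special → ¬ Fix_tst C.val i →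
      (∀ G, φ (fun j => C.val j G) = C.val i G) ∧ Fix_cert p q i φ := by
    intro i
    by_cases hi : i ∉ C.special ∧ ¬ Fix_tst C.val i
    · obtain ⟨φ, h1, h2⟩ := Fix_phi C.val i (C.mono_gate i hi.1) hi.2
      exact ⟨φ, fun _ _ => ⟨h1, h2⟩⟩
    · exact ⟨fun _ => 0, fun a b => absurd ⟨a, b⟩ hi⟩
  choose φ hφ using hex
  have hy := fun (v : Finset (Fin s)) (G : Finset Y) =>
    Fix_rec C.special v (Fix_tst C.val) (fun i => C.val i G) φ
      (fun i h1 h2 => (hφ i h1 h2).2)
  choose y y1 y2 y3 using hy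
  refine ⟨fun v i G => y v G i, ?_, ?_⟩
  · intro v i
    by_cases hi : i ∈ C.special
    · refine Or.inr (Or.inl ?_)
      intro G
      refine ⟨∅, by simp, by simp, ?_⟩
      intro G' _
      show y v G' i ≤ y v G i
      rw [y1 v G' i hi, y1 v G i hi]
    · by_cases ht : Fix_tst C.val i
      · refine Or.inl ?_
        obtain ⟨e, hab⟩ := id ht
        refine ⟨e, fun G => ⟨fun hG => ?_, fun hG => ?_⟩⟩
        · show y v G i = 1
          rw [y2 v G i hi ht]
          exact (hab G).1 hG
        · show y v G i = 0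
          rw [y2 v G i hi ht]
          exact (hab G).2 hG
      · rcases (hφ i hi ht).2 with hc | hc
        · refine Or.inr (Or.inl ?_)
          intro G
          obtain ⟨T, h1, h2, h3⟩ := hc (y v G)
          refine ⟨T, h1, h2, ?_⟩
          intro G' hG'
          show y v G' i ≤ y v G i
          rw [y3 v G' i hi ht, y3 v G i hi ht]
          exact h3 (y v G') hG'
        · refine Or.inr (Or.inr ?_)
          intro G
          obtain ⟨T, h1, h2, h3⟩ := hc (y v G)
          refine ⟨T, h1, h2, ?_⟩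
          intro G' hG'
          show y v G i ≤ y v G' i
          rw [y3 v G' i hi ht, y3 v G i hi ht]
          exact h3 (y v G') hG'
  · intro G
    set v := C.special.filter (fun i => C.val i G = 1) with hv
    have hvp : v ∈ C.special.powerset := Finset.mem_powerset.2 (Finset.filter_subset _ _)
    have e1 : ∀ i, y v G i = C.val i G := by
      intro i
      induction i using WellFoundedLT.induction with
      | ind i ih =>
        by_cases hi : i ∈ C.special
        · rw [y1 v G i hi]
          rcases C.special_val i hi G with h0 | h0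
          · have : i ∉ v := by
              rw [hv, Finset.mem_filter]
              rintro ⟨-, h1⟩
              rw [h0] at h1
              norm_num at h1
            rw [if_neg this, h0]
          · have : i ∈ v := by
              rw [hv, Finset.mem_filter]
              exact ⟨hi, h0⟩
            rw [if_pos this, h0]
        · by_cases ht : Fix_tst C.val i
          · exact y2 v G i hi ht
          · rw [y3 v G i hi ht, ← (hφ i hi ht).1 G]
            exact Fix_dep (hφ i hi ht).2 (fun j hj => ih j hj)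
    refine ⟨v, hvp, e1, ?_⟩
    intro G' hag
    show ∀ i, C.val i G' = y v G' i
    intro i
    induction i using WellFoundedLT.induction with
    | ind i ih =>
      by_cases hi : i ∈ C.special
      · have h1 : C.val i G = C.val i G' := by
          refine C.special_gate i hi G G' ?_
          intro x hx
          rcases hag with hag | hag
          · exact hag i hi x hx
          · have h2 : x.2 ≤ y v G x.1 ↔ x.2 ≤ y v G' x.1 := hag i hi x hx
            rw [e1 x.1, ← ih x.1 (C.reads_lt i hi x hx)] at h2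
            exact h2
        rw [← h1, ← e1 i, y1 v G i hi, y1 v G' i hi]
      · by_cases ht : Fix_tst C.val i
        · exact (y2 v G' i hi ht).symm
        · rw [y3 v G' i hi ht, ← (hφ i hi ht).1 G']
          exact Fix_dep (hφ i hi ht).2 (fun j hj => ih j hj)

end Pool.Agent.H95.CG
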