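import Mathlib

/-!
ROW Par (150 lines).  Parameters (Mathlib only).

`par`: let `l = Nat.log 2 (M * d) + 1`, `ρ = Nat.log 2 K + 1`, `g = 2 * (l * K)`. `K < 2 ^ ρ` (`Nat.lt_pow_succ_log_self`); `ρ ≤ l` since `K ≤ M ≤ M * d` (`1 ≤ K` gives `1 ≤ M ≤ d`; `Nat.log_mono_right`).
`8 p (4 ρ (2 (g ρ))) = 64 p g ρ² = 128 p l K ρ² ≤ 128 p K l³ ≤ d`. `M d + 1 ≤ 2 ^ l`, so `(M d + 1)^K ≤ 2^(l K)`; `4^L = 2^(2L)`, `2 L ≤ (q + 1) L = K ≤ l K`.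

`nform`: take `c = 4096`. Put `l = Nat.log 2 N + 1`, `K = (q + 1) * L ≤ 2 q L`, `X = 256 * p * (q * L) * l ^ 3` (so `X ≥ 256`), `d` a prime with `X < d ≤ 2 X` (`Nat.exists_prime_lt_and_le_two_mul X`), `M = K * l + l + 1`.
* `M ≤ 3 l K` is false in general but `M ≤ 4 K l`: `K ≥ 2` (as `q, L ≥ 1`), `l ≥ 1`: `l + 1 ≤ 2 l ≤ K l`, so `M ≤ 2 K l ≤ 4 q L l`.
* `B * M * d ≤ B * (4 q L l) * (2 * 256 p (q L) l^3) = 2048 B p (q L)^2 l^4 ≤ c * (p * (q * L)^2 * B * l ^ c) ≤ N`. So `M * d ≤ N`, `d ≤ N`, `B ≤ N` and `Nat.log 2 (M * d) + 1 ≤ l`.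
* `M ≤ d`: `M ≤ 4 q L l ≤ X < d`. `K ≤ M`.
* `2 * B * d ^ K ≤ 2 * 2^l * 2^(l K) = 2 ^ M`: `B ≤ N < 2^l`, `d ≤ N < 2^l` (`Nat.lt_pow_succ_log_self`).
* `128 p K (log (M d) + 1)^3 ≤ 128 p (2 q L) l^3 = X ≤ d`.
-/

namespace Pool.Agent.H95.CG

theorem par {p q L K M d : ℕ} (hp : 1 ≤ p) (hq : 1 ≤ q) (hL : 1 ≤ L) (hK : K = (q + 1) * L)
    (hKM : K ≤ M) (hMd : M ≤ d) (hd : 128 * p * K * (Nat.log 2 (M * d) + 1) ^ 3 ≤ d) :
    ∃ ρ g : ℕ, 1 ≤ ρ ∧ 1 ≤ g ∧ K < 2 ^ ρ ∧ 8 * p * (4 * ρ * (2 * (g * ρ))) ≤ d ∧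
      (M * d + 1) ^ K * 4 ^ L ≤ 2 ^ g := by
  have hK2 : 2 * L ≤ K := by
    rw [hK]
    exact Nat.mul_le_mul_right L (by omega)
  have hK1 : 1 ≤ K := by omega
  have hd1 : 1 ≤ d := by omega
  have hKMd : K ≤ M * d := hKM.trans (Nat.le_mul_of_pos_right M hd1)
  obtain ⟨l, hl⟩ : ∃ l, l = Nat.log 2 (M * d) + 1 := ⟨_, rfl⟩
  obtain ⟨ρ, hρ⟩ : ∃ ρ, ρ = Nat.log 2 K + 1 := ⟨_, rfl⟩
  have hρl : ρ ≤ l := by
    rw [hρ, hl]
    exact Nat.add_le_add_right (Nat.log_mono_right hKMd) 1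
  have hl1 : 1 ≤ l := by omega
  rw [← hl] at hd
  have hlK : 1 ≤ l * K := Nat.mul_pos hl1 hK1
  refine ⟨ρ, 2 * (l * K), by omega, by omega, ?_, ?_, ?_⟩
  · rw [hρ]
    exact Nat.lt_pow_succ_log_self (by norm_num) K
  · refine le_trans ?_ hd
    have h1 : ρ * ρ ≤ l * l := Nat.mul_le_mul hρl hρl
    calc 8 * p * (4 * ρ * (2 * (2 * (l * K) * ρ))) = 128 * p * K * l * (ρ * ρ) := by ring
      _ ≤ 128 * p * K * l * (l * l) := Nat.mul_le_mul_left _ h1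
      _ = 128 * p * K * l ^ 3 := by ring
  · have h1 : M * d + 1 ≤ 2 ^ l := by
      rw [hl]
      exact Nat.lt_pow_succ_log_self (by norm_num) (M * d)
    have h2 : (M * d + 1) ^ K ≤ 2 ^ (l * K) := by
      rw [pow_mul]
      exact Nat.pow_le_pow_left h1 K
    have h3 : 4 ^ L ≤ 2 ^ (l * K) := by
      have h4 : (4 : ℕ) ^ L = 2 ^ (2 * L) := by
        rw [pow_mul]
        norm_num
      rw [h4]
      apply Nat.pow_le_pow_right (by norm_num)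
      exact hK2.trans (Nat.le_mul_of_pos_left K hl1)
    calc (M * d + 1) ^ K * 4 ^ L ≤ 2 ^ (l * K) * 2 ^ (l * K) := Nat.mul_le_mul h2 h3
      _ = 2 ^ (2 * (l * K)) := by
        rw [← pow_add]
        congr 1
        ring

theorem nform : ∃ c : ℕ, ∀ N p q L B : ℕ, 1 ≤ p → 1 ≤ q → 1 ≤ L → 1 ≤ B →
    c * (p * (q * L) ^ 2 * B * (Nat.log 2 N + 1) ^ c) ≤ N →
    ∃ M d : ℕ, d.Prime ∧ M ≤ d ∧ (q + 1) * L ≤ M ∧ 2 * B * d ^ ((q + 1) * L) ≤ 2 ^ M ∧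
      128 * p * ((q + 1) * L) * (Nat.log 2 (M * d) + 1) ^ 3 ≤ d ∧ B * M * d ≤ N := by
  refine ⟨4096, ?_⟩
  intro N p q L B hp hq hL hB hN
  obtain ⟨l, hl⟩ : ∃ l, l = Nat.log 2 N + 1 := ⟨_, rfl⟩
  rw [← hl] at hN
  have hl1 : 1 ≤ l := by omega
  obtain ⟨K, hK⟩ : ∃ K, K = (q + 1) * L := ⟨_, rfl⟩
  rw [← hK]
  have hK2 : 2 ≤ K := by
    rw [hK]
    calc 2 = 2 * 1 := rfl
      _ ≤ (q + 1) * L := Nat.mul_le_mul (by omega) hL
  have hKq : K ≤ 2 * (q * L) := by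
    rw [hK]
    calc (q + 1) * L ≤ (2 * q) * L := Nat.mul_le_mul_right L (by omega)
      _ = 2 * (q * L) := by ring
  have hqL : 1 ≤ q * L := Nat.mul_pos hq hL
  obtain ⟨X, hX⟩ : ∃ X, X = 256 * p * (q * L) * l ^ 3 := ⟨_, rfl⟩
  have hl3 : 1 ≤ l ^ 3 := Nat.one_le_pow _ _ hl1
  have hXl : 4 * (q * L) * l ≤ X := by
    rw [hX]
    calc 4 * (q * L) * l ≤ (256 * p * (q * L)) * l := by
          apply Nat.mul_le_mul_right
          apply Nat.mul_le_mul_right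
          omega
      _ ≤ (256 * p * (q * L)) * l ^ 3 := by
          apply Nat.mul_le_mul_left
          calc l = l ^ 1 := (pow_one l).symm
            _ ≤ l ^ 3 := Nat.pow_le_pow_right hl1 (by norm_num)
  have hX1 : X ≠ 0 := by
    have : 1 ≤ 4 * (q * L) * l := Nat.mul_pos (by omega) hl1
    omega
  obtain ⟨d, hdp, hXd, hd2⟩ := Nat.exists_prime_lt_and_le_two_mul X hX1
  obtain ⟨M, hM⟩ : ∃ M, M = K * l + l + 1 := ⟨_, rfl⟩
  have hMK : M ≤ 4 * (q * L) * l := by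
    have h1 : 2 * l ≤ K * l := Nat.mul_le_mul_right l hK2
    have h2 : K * l ≤ 2 * (q * L) * l := Nat.mul_le_mul_right l hKq
    have h3 : 4 * (q * L) * l = 2 * (2 * (q * L) * l) := by ring
    rw [hM, h3]
    omega
  have hM1 : 1 ≤ M := by omega
  have hd1 : 1 ≤ d := hdp.one_lt.le
  have hBMd : B * M * d ≤ N := by
    have h4 : l ^ 4 ≤ l ^ 4096 := Nat.pow_le_pow_right hl1 (by norm_num)
    calc B * M * d ≤ B * (4 * (q * L) * l) * (2 * X) :=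
          Nat.mul_le_mul (Nat.mul_le_mul_left B hMK) hd2
      _ = 2048 * (p * (q * L) ^ 2 * B * l ^ 4) := by
          rw [hX]
          ring
      _ ≤ 4096 * (p * (q * L) ^ 2 * B * l ^ 4096) :=
          Nat.mul_le_mul (by norm_num) (Nat.mul_le_mul_left _ h4)
      _ ≤ N := hN
  have hMdN : M * d ≤ N := by
    refine le_trans ?_ hBMd
    rw [mul_assoc]
    exact Nat.le_mul_of_pos_left _ hB
  have hdN : d ≤ N := (Nat.le_mul_of_pos_left d hM1).trans hMdN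
  have hBN : B ≤ N := by
    refine le_trans ?_ hBMd
    rw [mul_assoc]
    exact Nat.le_mul_of_pos_right _ (Nat.mul_pos hM1 hd1)
  have hNl : N < 2 ^ l := by
    rw [hl]
    exact Nat.lt_pow_succ_log_self (by norm_num) N
  have hlog : Nat.log 2 (M * d) + 1 ≤ l := by
    rw [hl]
    exact Nat.add_le_add_right (Nat.log_mono_right hMdN) 1
  refine ⟨M, d, hdp, ?_, ?_, ?_, ?_, hBMd⟩
  · omega
  · have : K * 1 ≤ K * l := Nat.mul_le_mul_left K hl1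
    omega
  · have h1 : d ^ K ≤ 2 ^ (l * K) := by
      rw [pow_mul]
      exact Nat.pow_le_pow_left (hdN.trans hNl.le) K
    have h2 : 2 * B ≤ 2 ^ (l + 1) := by
      rw [pow_succ]
      omega
    calc 2 * B * d ^ K ≤ 2 ^ (l + 1) * 2 ^ (l * K) := Nat.mul_le_mul h2 h1
      _ = 2 ^ M := by
        rw [← pow_add, hM]
        congr 1
        ring
  · have h1 : (Nat.log 2 (M * d) + 1) ^ 3 ≤ l ^ 3 := Nat.pow_le_pow_left hlog 3
    calc 128 * p * K * (Nat.log 2 (M * d) + 1) ^ 3 ≤ 128 * p * (2 * (q * L)) * l ^ 3 :=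
          Nat.mul_le_mul (Nat.mul_le_mul_left _ hKq) h1
      _ = X := by
          rw [hX]
          ring
      _ ≤ d := hXd.le

end Pool.Agent.H95.CG
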