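import Pool.Agent.H95.CG.Defs
import Pool.Agent.H78.KK.Cha
import Pool.Agent.H13.MonoHyper

/-!
ROW Pol (170 lines).  Graphs of polynomials.

`X = Fin M × ZMod d`, `YP a` = graph of the polynomial with the coefficients `a : Fin K → ZMod d` on the points `0, ..., M - 1` (different modulo `d` because `M ≤ d`).
`pol_spread`: copy Pool/Agent/H78/KK/Rs.lean (`Rs_det`, `Rs_mem`, `Rs_card`, `rs_spread`) with `Sym F h` replaced by `ZMod d` (one coordinate, no `b j`), `h` by `K`, `x m = (m.val : ZMod d)`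
(injective for `M ≤ d`: `ZMod.natCast_eq_natCast_iff'` / `ZMod.val_cast_of_lt`). `d` is prime, so `ZMod d` is a field.
`pol_pos`: `Curve J M d K (S₀ ∪ put b (YP a))`: layer `b`, polynomial `a`; `(b, (m, _)) ∈ put b (YP a)`.
`pol_mono`: clear.
`pol_neg`: `Curve J M d K (pre N ω J)` with `N w = Neg w` means: some `b, a` with `YP a ⊆ Neg (ω b)` (unfold `pre`: `(b, z) ∈ pre N ω J ↔ z ∈ N (ω b)`, as `b.1 < J`). For fixed `b, a`:
`cnt (fun ω => YP a ⊆ Neg (ω b)) * card Ω = cnt (fun w => YP a ⊆ Neg w) * card (Fin J → Ω)` (`Noi_block` in Pool/Agent/H78/KK/Noi.lean, copy it, or `H78.KK.Cha_cnt_update b`), and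
`H13.neg_contains` gives `cnt (fun w => YP a ⊆ Neg w) ≤ (1/2)^M card Ω` (`(YP a).card = M`). So (`H13.cnt_exists` over `(b, a) ∈ univ`) the number of `ω` with `Curve` is at most
`J * d ^ K * (1/2)^M * card (Fin J → Ω) ≤ 1/2 * card (Fin J → Ω)` by `2 * J * d ^ K ≤ 2 ^ M`; take the complement (`cnt P + cnt (¬ P) = card`: see `H13.cnt_true`, `H13.cnt_or`).
-/

namespace Pool.Agent.H95.CG

open Finset Classical
open H13 (cnt Neg)
open Pool.Agent.H78.KK (put pre)

variable {J M d K : ℕ}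

/-- the graph of a polynomial -/
def YP (a : Fin K → ZMod d) : Finset (Fin M × ZMod d) :=
  univ.image fun m : Fin M => (m, ∑ i, a i * (m.val : ZMod d) ^ (i : ℕ))

theorem card_YP (a : Fin K → ZMod d) : (YP (M := M) a).card = M := by
  unfold YP
  rw [card_image_of_injective, card_univ, Fintype.card_fin]
  intro m m' h
  exact congrArg Prod.fst h

/-- the value of a polynomial -/
def Pol_sym (a : Fin K → ZMod d) (m : Fin M) : ZMod d := ∑ i, a i * (m.val : ZMod d) ^ (i : ℕ)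

theorem Pol_inj (hMd : M ≤ d) : Function.Injective (fun m : Fin M => (m.val : ZMod d)) := by
  intro m m' h
  have h1 : ((m.val : ℕ) : ZMod d) = ((m'.val : ℕ) : ZMod d) := h
  rw [ZMod.natCast_eq_natCast_iff'] at h1
  rw [Nat.mod_eq_of_lt (lt_of_lt_of_le m.2 hMd), Nat.mod_eq_of_lt (lt_of_lt_of_le m'.2 hMd)] at h1
  exact Fin.ext h1

theorem Pol_det [Fact d.Prime] (hMd : M ≤ d) (P' : Finset (Fin M)) (hP' : P'.card = K)
    (a a' : Fin K → ZMod d) (hs : ∀ m ∈ P', Pol_sym a m = Pol_sym a' m) : a = a' := by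
  funext i
  have hv : (fun i => a i - a' i) = 0 := by
    refine Matrix.eq_zero_of_forall_index_sum_mul_pow_eq_zero
      (f := fun k => (((P'.orderEmbOfFin hP' k).val : ℕ) : ZMod d))
      ((Pol_inj hMd).comp (P'.orderEmbOfFin hP').injective) (fun k => ?_)
    have h1 := hs _ (P'.orderEmbOfFin_mem hP' k)
    simp only [Pol_sym] at h1
    simp only [sub_mul, sum_sub_distrib, h1, sub_self]
  have h2 := congrFun hv i
  simpa [sub_eq_zero] using h2

theorem Pol_mem {a : Fin K → ZMod d} {y : Fin M × ZMod d} (hy : y ∈ YP a) : y.2 = Pol_sym a y.1 := by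
  unfold YP at hy
  obtain ⟨m, -, hm⟩ := mem_image.mp hy
  rw [← hm]
  rfl

theorem Pol_card [Fact d.Prime] (hMd : M ≤ d) (S : Finset (Fin M × ZMod d)) (P' : Finset (Fin M))
    (hP' : P'.card = K) :
    Fintype.card {a : Fin K → ZMod d // S ⊆ YP a} ≤ d ^ (P' \ S.image Prod.fst).card := by
  have h1 : Fintype.card (↥(P' \ S.image Prod.fst) → ZMod d) = d ^ (P' \ S.image Prod.fst).card := by
    rw [Fintype.card_fun, Fintype.card_coe, ZMod.card]
  rw [← h1]
  refine Fintype.card_le_of_injective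
    (fun a : {a : Fin K → ZMod d // S ⊆ YP a} => fun m : ↥(P' \ S.image Prod.fst) => Pol_sym a.1 m.1) ?_
  intro a a' ha
  apply Subtype.ext
  refine Pol_det hMd P' hP' a.1 a'.1 (fun m hm => ?_)
  by_cases hmP : m ∈ S.image Prod.fst
  · obtain ⟨y, hyS, hym⟩ := mem_image.mp hmP
    have e1 := Pol_mem (a.2 hyS)
    have e2 := Pol_mem (a'.2 hyS)
    rw [← hym, ← e1, ← e2]
  · exact congrFun ha ⟨m, mem_sdiff.mpr ⟨hm, hmP⟩⟩

theorem pol_spread [Fact d.Prime] (hMd : M ≤ d) (hKM : K ≤ M) (S : Finset (Fin M × ZMod d)) (hS : S.card ≤ K) :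
    cnt (fun a : Fin K → ZMod d => S ⊆ YP a) * (d : ℝ) ^ S.card ≤ (d : ℝ) ^ K := by
  by_cases hex : ∃ a : Fin K → ZMod d, S ⊆ YP a
  · obtain ⟨a0, ha0⟩ := hex
    have hinj : Set.InjOn Prod.fst (S : Set (Fin M × ZMod d)) := by
      intro y hy z hz hyz
      have e1 := Pol_mem (ha0 hy)
      have e2 := Pol_mem (ha0 hz)
      refine Prod.ext hyz ?_
      rw [e1, e2, hyz]
    have hPc : (S.image Prod.fst).card = S.card := card_image_of_injOn hinj
    have hPh : (S.image Prod.fst).card ≤ K := by rw [hPc]; exact hS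
    have hMh : K ≤ (univ : Finset (Fin M)).card := by rw [card_univ, Fintype.card_fin]; exact hKM
    obtain ⟨P', hPP', -, hP'⟩ := exists_subsuperset_card_eq (subset_univ (S.image Prod.fst)) hPh hMh
    have h1 := Pol_card hMd S P' hP'
    have h2 : (P' \ S.image Prod.fst).card = K - S.card := by
      rw [card_sdiff_of_subset hPP', hP', hPc]
    rw [h2] at h1
    have h3 : cnt (fun a : Fin K → ZMod d => S ⊆ YP a) =
        (Fintype.card {a : Fin K → ZMod d // S ⊆ YP a} : ℝ) := by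
      unfold H13.cnt
      rw [Fintype.card_subtype]
      congr
    have h4 : (d : ℝ) ^ K = (d : ℝ) ^ (K - S.card) * (d : ℝ) ^ S.card := by
      rw [← pow_add, Nat.sub_add_cancel hS]
    rw [h3, h4]
    refine mul_le_mul_of_nonneg_right ?_ (by positivity)
    exact_mod_cast h1
  · have h0 : cnt (fun a : Fin K → ZMod d => S ⊆ YP a) = 0 := H13.cnt_eq_zero (fun a ha => hex ⟨a, ha⟩)
    rw [h0, zero_mul]
    positivity

theorem pol_pos [NeZero d] (S₀ : Finset (Fin J × (Fin M × ZMod d))) (b : Fin J) (a : Fin K → ZMod d) :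
    Curve J M d K (S₀ ∪ put b (YP a)) := by
  refine ⟨b, a, fun m => ?_⟩
  refine mem_union_right _ ?_
  unfold put YP
  rw [mem_filter]
  exact ⟨mem_univ _, rfl, mem_image.2 ⟨m, mem_univ _, rfl⟩⟩

theorem pol_mono (x y : Finset (Fin J × (Fin M × ZMod d))) (hxy : x ⊆ y)
    (h : Curve J M d K x) : Curve J M d K y := by
  obtain ⟨b, a, hba⟩ := h
  exact ⟨b, a, fun m => hxy (hba m)⟩

theorem Pol_block {ι γ : Type} [Fintype ι] [DecidableEq ι] [Fintype γ] (i : ι) (P : γ → Prop) :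
    cnt (fun f : ι → γ => P (f i)) * Fintype.card γ = cnt P * Fintype.card (ι → γ) := by
  have h := H13.cnt_pi_const (ι := ι) (γ := γ) {i} (univ.filter P)
  rw [Finset.card_singleton, pow_one, pow_one] at h
  have h1 : cnt (fun f : ι → γ => ∀ j ∈ ({i} : Finset ι), f j ∈ univ.filter P) =
      cnt (fun f : ι → γ => P (f i)) := by
    apply le_antisymm
    · refine H13.cnt_mono (fun f hf => ?_)
      exact H13.mem_ufilter.1 (hf i (Finset.mem_singleton_self i))
    · refine H13.cnt_mono (fun f hf j hj => ?_)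
      rw [Finset.mem_singleton] at hj
      rw [hj]
      exact H13.mem_ufilter.2 hf
  rw [h1] at h
  rw [h, Fintype.card_fun, Nat.cast_pow]
  rw [H13.cnt_eq_card P (fun a => inferInstance)]

theorem Pol_not {β : Type} [Fintype β] (P : β → Prop) :
    cnt P + cnt (fun z => ¬ P z) = Fintype.card β := by
  rw [H13.cnt_eq_card P (fun a => inferInstance), H13.cnt_eq_card (fun z => ¬ P z) (fun a => inferInstance),
    ← Nat.cast_add, Finset.card_filter_add_card_filter_not, Finset.card_univ]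

theorem Pol_curve [NeZero d] {Ω : Type} (N : Ω → Finset (Fin M × ZMod d)) (ω : Fin J → Ω)
    (h : Curve J M d K (pre N ω J)) : ∃ (b : Fin J) (a : Fin K → ZMod d), YP a ⊆ N (ω b) := by
  obtain ⟨b, a, hba⟩ := h
  refine ⟨b, a, fun y hy => ?_⟩
  unfold YP at hy
  obtain ⟨m, -, hm⟩ := mem_image.mp hy
  rw [← hm]
  have h1 := hba m
  unfold pre at h1
  rw [mem_filter] at h1
  exact h1.2.2

theorem pol_neg [NeZero d] {g ρ e : ℕ} (he : e = 2 * (g * ρ)) (he0 : 0 < e) (hM : 2 * J * d ^ K ≤ 2 ^ M) :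
    1 / 2 * (Fintype.card (Fin J → (Fin g → Fin ρ → (Fin M × ZMod d) → Fin e)) : ℝ) ≤
      cnt (fun ω : Fin J → (Fin g → Fin ρ → (Fin M × ZMod d) → Fin e) =>
        ¬ Curve J M d K (pre (fun w => Neg w) ω J)) := by
  set Ω : Type := Fin g → Fin ρ → (Fin M × ZMod d) → Fin e with hΩ
  set tot : ℝ := (Fintype.card (Fin J → Ω) : ℝ) with htot
  have h1 : cnt (fun ω : Fin J → Ω => Curve J M d K (pre (fun w : Ω => Neg w) ω J)) ≤
      ∑ x ∈ (univ : Finset (Fin J × (Fin K → ZMod d))),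
        cnt (fun ω : Fin J → Ω => YP (M := M) x.2 ⊆ Neg (ω x.1)) := by
    refine le_trans (H13.cnt_mono (fun ω hω => ?_)) (H13.cnt_exists _ _)
    obtain ⟨b, a, hba⟩ := Pol_curve (fun w : Ω => Neg w) ω hω
    exact ⟨(b, a), mem_univ _, hba⟩
  have hcard : (0 : ℝ) < Fintype.card Ω := by
    have : Nonempty Ω := ⟨fun _ _ _ => ⟨0, he0⟩⟩
    exact_mod_cast Fintype.card_pos
  have h2 : ∀ x : Fin J × (Fin K → ZMod d),
      cnt (fun ω : Fin J → Ω => YP (M := M) x.2 ⊆ Neg (ω x.1)) ≤ (1 / 2) ^ M * tot := by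
    intro x
    have e1 := Pol_block (ι := Fin J) (γ := Ω) x.1 (fun w : Ω => YP (M := M) x.2 ⊆ Neg w)
    have e2 := H13.neg_contains (g := g) (ρ := ρ) he he0 (YP (M := M) x.2)
    rw [card_YP] at e2
    have e3 : cnt (fun ω : Fin J → Ω => YP (M := M) x.2 ⊆ Neg (ω x.1)) * Fintype.card Ω ≤
        (1 / 2) ^ M * tot * Fintype.card Ω := by
      rw [e1]
      calc cnt (fun w : Ω => YP (M := M) x.2 ⊆ Neg w) * (Fintype.card (Fin J → Ω) : ℝ)
          ≤ ((1 / 2) ^ M * (Fintype.card Ω : ℝ)) * (Fintype.card (Fin J → Ω) : ℝ) :=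
            mul_le_mul_of_nonneg_right e2 (Nat.cast_nonneg _)
        _ = _ := by rw [htot]; ring
    exact le_of_mul_le_mul_right e3 hcard
  have h3 : cnt (fun ω : Fin J → Ω => Curve J M d K (pre (fun w : Ω => Neg w) ω J)) ≤
      (J : ℝ) * (d : ℝ) ^ K * ((1 / 2) ^ M * tot) := by
    refine h1.trans ((Finset.sum_le_card_nsmul _ _ _ (fun x _ => h2 x)).trans (le_of_eq ?_))
    rw [nsmul_eq_mul, Finset.card_univ, Fintype.card_prod, Fintype.card_fun, Fintype.card_fin,
      Fintype.card_fin, ZMod.card]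
    push_cast
    ring
  have hM' : (2 : ℝ) * J * (d : ℝ) ^ K ≤ 2 ^ M := by exact_mod_cast hM
  have htot0 : 0 ≤ tot := Nat.cast_nonneg _
  have h4 : (J : ℝ) * (d : ℝ) ^ K * ((1 / 2) ^ M * tot) ≤ 1 / 2 * tot := by
    have e1 : (J : ℝ) * (d : ℝ) ^ K * (1 / 2) ^ M ≤ 1 / 2 := by
      have e2 := mul_le_mul_of_nonneg_right hM' (show (0 : ℝ) ≤ (1 / 2) ^ M by positivity)
      rw [← mul_pow] at e2
      norm_num at e2
      linarith
    calc (J : ℝ) * (d : ℝ) ^ K * ((1 / 2) ^ M * tot) = ((J : ℝ) * (d : ℝ) ^ K * (1 / 2) ^ M) * tot := by ring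
      _ ≤ _ := mul_le_mul_of_nonneg_right e1 htot0
  have h5 := Pol_not (fun ω : Fin J → Ω => Curve J M d K (pre (fun w : Ω => Neg w) ω J))
  linarith

end Pool.Agent.H95.CG
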