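import Pool.Agent.H95.CG.Chn
import Pool.Agent.H95.CG.Pol
import Pool.Agent.H95.CG.Par

/-!
The trade-off between monotone gates with certificates, arbitrary gates and size.
-/

namespace Pool.Agent.H95.CG

open Finset Classical
open H13 (cnt Neg)
open Pool.Agent.H78.KK (put pre)
open Pool.Agent.H95.MT (Data DGate)

theorem explicit {p q L K J M d W s : ℕ} (hp : 1 ≤ p) (hq : 1 ≤ q) (hL : 1 ≤ L)
    (hK : (q + 1) * L ≤ K) (hKM : K ≤ M) (hMd : M ≤ d) (hdp : d.Prime)
    (hM : 2 * J * d ^ K ≤ 2 ^ M)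
    (hd : 128 * p * ((q + 1) * L) * (Nat.log 2 (M * d) + 1) ^ 3 ≤ d)
    (hs : 2 * (W * s + 1) < 4 ^ L) (C : Fin W → Circuit (Fin J × Fin M × ZMod d) s p q)
    (out : Fin W → Fin s) (θ : Fin W → ℝ) (Φ : (Fin W → Prop) → Prop)
    (hf : ∀ F, Φ (fun w => θ w ≤ (C w).val (out w) F) ↔ Curve J M d K F) :
    ∃ x : ℕ → Finset (Fin J × Fin M × ZMod d), (∀ j, x j ⊆ x (j + 1)) ∧
      J ≤ 4 * ((Finset.range J).filter fun j =>
        ∃ w, Changes (C w) (out w) (θ w) (x j) (x (j + 1))).card := by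
  have : Fact d.Prime := ⟨hdp⟩
  have : NeZero d := ⟨hdp.ne_zero⟩
  obtain ⟨ρ, g, hρ1, hg1, hKρ, hR, hG⟩ := par hp hq hL rfl (hK.trans hKM) hMd hd
  set e : ℕ := 2 * (g * ρ) with he
  have he0 : 0 < e := by
    have : 0 < g * ρ := Nat.mul_pos hg1 hρ1
    omega
  have : NeZero e := ⟨he0.ne'⟩
  let X := Fin M × ZMod d
  let A := Fin K → ZMod d
  let Ω := Fin g → Fin ρ → X → Fin e
  let N : Ω → Finset X := fun w => Neg w
  let Y : A → Finset X := fun a => YP a
  have hρ' : (1 : ℝ) ≤ ρ := by exact_mod_cast hρ1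
  have he' : (1 : ℝ) ≤ e := by exact_mod_cast he0
  have hdata : Data N Y L ((q + 1) * L) (p : ℝ) ((4 * ρ : ℝ) * e) (d : ℝ) ((1 / 2) ^ g) :=
    { hL := hL
      hp := by exact_mod_cast hp
      hR := by nlinarith
      hQ := by
        have : ((8 * p * (4 * ρ * e) : ℕ) : ℝ) ≤ ((d : ℕ) : ℝ) := by exact_mod_cast hR
        push_cast at this
        exact this
      hδ := by positivity
      hδ1 := pow_lt_one₀ (by norm_num) (by norm_num) (by omega)
      hΩ := Fintype.card_pos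
      hA := Fintype.card_pos
      hcover := fun F hF hsize hsp => H13.neg_cover he0 hρ1 hKρ F hF hsize hsp
      hpos := fun S hS => by
        have h1 := pol_spread (K := K) hMd hKM S (hS.trans hK)
        have h2 : (Fintype.card A : ℝ) = (d : ℝ) ^ K := by
          simp [A, ZMod.card]
        rw [h2]
        exact h1
      hneg := by
        have h1 := H13.card_small_sets (X := X) ((q + 1) * L)
        have h2 : Fintype.card X = M * d := by
          simp [X, ZMod.card]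
        rw [h2] at h1
        have h3 : (univ.filter (fun T : Finset X => T.card ≤ (q + 1) * L)).card * 4 ^ L ≤ 2 ^ g :=
          (Nat.mul_le_mul_right _ h1).trans hG
        have h4 : ((univ.filter (fun T : Finset X => T.card ≤ (q + 1) * L)).card : ℝ) * 4 ^ L
            ≤ 2 ^ g := by exact_mod_cast h3
        rw [div_pow, div_pow, one_pow, one_pow, mul_one_div, div_le_div_iff₀ (by positivity)
          (by positivity)]
        linarith }
  exact chain_main hdata hq le_rfl hs C out θ Φ (Curve J M d K) hf pol_mono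
    (fun S₀ b a => pol_pos S₀ b a) (pol_neg he he0 hM)

/-- at most `r` arbitrary gates reading at most `t` comparisons each -/
theorem explicit_few {p q L K J M d W s r t : ℕ} (hp : 1 ≤ p) (hq : 1 ≤ q) (hL : 1 ≤ L)
    (hK : (q + 1) * L ≤ K) (hKM : K ≤ M) (hMd : M ≤ d) (hdp : d.Prime)
    (hM : 2 * J * d ^ K ≤ 2 ^ M)
    (hd : 128 * p * ((q + 1) * L) * (Nat.log 2 (M * d) + 1) ^ 3 ≤ d)
    (hs : 2 * (W * s + 1) < 4 ^ L) (C : Fin W → Circuit (Fin J × Fin M × ZMod d) s p q)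
    (out : Fin W → Fin s) (θ : Fin W → ℝ) (Φ : (Fin W → Prop) → Prop)
    (hf : ∀ F, Φ (fun w => θ w ≤ (C w).val (out w) F) ↔ Curve J M d K F)
    (hr : ∀ w, (C w).special.card ≤ r) (ht : ∀ w, ∀ i ∈ (C w).special, ((C w).reads i).card ≤ t) :
    J ≤ 4 * (W * ((r * t + 1) * 2 ^ r)) := by
  have : NeZero d := ⟨hdp.ne_zero⟩
  obtain ⟨x, hx, hJ⟩ := explicit hp hq hL hK hKM hMd hdp hM hd hs C out θ Φ hf
  refine hJ.trans (Nat.mul_le_mul_left 4 ?_)
  have h1 : ((Finset.range J).filter fun j =>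
      ∃ w, Changes (C w) (out w) (θ w) (x j) (x (j + 1))) ⊆
      univ.biUnion fun w => (Finset.range J).filter fun j =>
        Changes (C w) (out w) (θ w) (x j) (x (j + 1)) := by
    intro j hj
    obtain ⟨h1, w, h2⟩ := Finset.mem_filter.1 hj
    exact Finset.mem_biUnion.2 ⟨w, Finset.mem_univ _, Finset.mem_filter.2 ⟨h1, h2⟩⟩
  refine (Finset.card_le_card h1).trans ?_
  refine (Finset.card_biUnion_le_card_mul _ _ _ fun w _ =>
    count_changes (C w) (out w) (θ w) (hr w) (ht w) x hx J).trans ?_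
  simp

/-- in terms of the number of input bits -/
theorem nbits : ∃ c : ℕ, ∀ N p q L W r t : ℕ, 1 ≤ p → 1 ≤ q → 1 ≤ L → 1 ≤ W →
    c * (p * (q * L) ^ 2 * (W * (t + 1) * 2 ^ r) * (Nat.log 2 N + 1) ^ c) ≤ N →
    ∃ J M d : ℕ, d.Prime ∧ J * M * d ≤ N ∧
      ∀ (s : ℕ) (C : Fin W → Circuit (Fin J × Fin M × ZMod d) s p q)
        (out : Fin W → Fin s) (θ : Fin W → ℝ) (Φ : (Fin W → Prop) → Prop),
        (∀ w, (C w).special.card ≤ r) →
        (∀ w, ∀ i ∈ (C w).special, ((C w).reads i).card ≤ t) →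
        (∀ F, Φ (fun w => θ w ≤ (C w).val (out w) F) ↔ Curve J M d ((q + 1) * L) F) →
        4 ^ L ≤ 2 * (W * s + 1) := by
  obtain ⟨c, hc⟩ := nform
  refine ⟨5 * c + 1, fun N p q L W r t hp hq hL hW hN => ?_⟩
  set l := Nat.log 2 N + 1 with hl
  have hl1 : 1 ≤ l := by omega
  -- the number of arbitrary gates is at most `log N`
  have hN1 : 1 ≤ N := by
    refine le_trans ?_ hN
    have : 1 ≤ p * (q * L) ^ 2 * (W * (t + 1) * 2 ^ r) * l ^ (5 * c + 1) := by
      have h1 : 0 < p * (q * L) ^ 2 := Nat.mul_pos hp (pow_pos (Nat.mul_pos hq hL) 2)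
      have h2 : 0 < W * (t + 1) * 2 ^ r := Nat.mul_pos (Nat.mul_pos hW (by omega)) (by positivity)
      exact Nat.mul_pos (Nat.mul_pos h1 h2) (pow_pos hl1 _)
    nlinarith
  have hrl : r + 1 ≤ l := by
    have h1 : 2 ^ r ≤ N := by
      refine le_trans ?_ hN
      have h1 : 1 ≤ p * (q * L) ^ 2 := Nat.mul_pos hp (pow_pos (Nat.mul_pos hq hL) 2)
      have h2 : 1 ≤ W * (t + 1) := Nat.mul_pos hW (by omega)
      have h3 : 1 ≤ l ^ (5 * c + 1) := Nat.pos_of_ne_zero (pow_pos hl1 _).ne'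
      calc 2 ^ r = 1 * (1 * (1 * 2 ^ r) * 1) := by ring
        _ ≤ (5 * c + 1) * (p * (q * L) ^ 2 * (W * (t + 1) * 2 ^ r) * l ^ (5 * c + 1)) :=
            Nat.mul_le_mul (by omega) (Nat.mul_le_mul (Nat.mul_le_mul h1
              (Nat.mul_le_mul_right _ h2)) h3)
    have h2 := Nat.log_mono_right (b := 2) h1
    rw [Nat.log_pow (by norm_num)] at h2
    omega
  set B := 4 * (W * ((r * t + 1) * 2 ^ r)) + 1 with hB
  have hBle : B ≤ 5 * (W * (t + 1) * 2 ^ r) * l := by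
    have h1 : r * t + 1 ≤ (t + 1) * l := by nlinarith
    have h2 : W * ((r * t + 1) * 2 ^ r) ≤ W * (t + 1) * 2 ^ r * l := by
      calc W * ((r * t + 1) * 2 ^ r) ≤ W * (((t + 1) * l) * 2 ^ r) :=
            Nat.mul_le_mul_left _ (Nat.mul_le_mul_right _ h1)
        _ = _ := by ring
    have h3 : 1 ≤ W * (t + 1) * 2 ^ r * l :=
      Nat.mul_pos (Nat.mul_pos (Nat.mul_pos hW (by omega)) (by positivity)) hl1
    have h4 : 5 * (W * (t + 1) * 2 ^ r) * l = 5 * (W * (t + 1) * 2 ^ r * l) := by ring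
    omega
  obtain ⟨M, d, hdp, hMd, hKM, hM, hd, hNN⟩ := hc N p q L B hp hq hL (by omega) (by
    refine le_trans ?_ hN
    calc c * (p * (q * L) ^ 2 * B * l ^ c)
        ≤ c * (p * (q * L) ^ 2 * (5 * (W * (t + 1) * 2 ^ r) * l) * l ^ c) :=
          Nat.mul_le_mul_left _ (Nat.mul_le_mul_right _ (Nat.mul_le_mul_left _ hBle))
      _ = 5 * c * (p * (q * L) ^ 2 * (W * (t + 1) * 2 ^ r) * l ^ (c + 1)) := by ring
      _ ≤ (5 * c + 1) * (p * (q * L) ^ 2 * (W * (t + 1) * 2 ^ r) * l ^ (5 * c + 1)) :=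
          Nat.mul_le_mul (by omega) (Nat.mul_le_mul_left _
            (Nat.pow_le_pow_right hl1 (by omega))))
  refine ⟨B, M, d, hdp, hNN, fun s C out θ Φ hr ht hf => ?_⟩
  by_contra hcon
  rw [not_le] at hcon
  have := explicit_few hp hq hL le_rfl hKM hMd hdp hM hd hcon C out θ Φ hf hr ht
  omega

end Pool.Agent.H95.CG
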